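import Pool.Agent.Helper37.DG.Stmts

set_option autoImplicit false

/-! Distances in dense subsets of grids (MP_e500b6_co): the upper bound sieve in the box. -/

namespace Pool.Agent.Helper37.DG

open Finset
open scoped Classical

/-- multiples of `g` in `[-M, M]` -/
theorem ups_mult (M g : ℕ) (hg : 1 ≤ g) (hgM : g ≤ M) :
    (((Finset.Icc (-(M : ℤ)) (M : ℤ)).filter (fun y => (g : ℤ) ∣ y)).card : ℝ) ≤ 3 * M / g := by
  have hg0 : (0 : ℤ) < (g : ℤ) := by exact_mod_cast hg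
  have h1 : ((Finset.Icc (-(M : ℤ)) (M : ℤ)).filter (fun y => (g : ℤ) ∣ y)).card ≤
      (Finset.Icc (-((M / g : ℕ) : ℤ)) ((M / g : ℕ) : ℤ)).card := by
    apply Finset.card_le_card_of_injOn (fun y => y / (g : ℤ))
    · intro y hy
      have hy' := Finset.mem_filter.1 (Finset.mem_coe.1 hy)
      obtain ⟨hy1, c, hc⟩ := hy'
      rw [Finset.mem_Icc] at hy1
      have e1 : y / (g : ℤ) = c := by
        rw [hc]; exact Int.mul_ediv_cancel_left c (ne_of_gt hg0)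
      have e2 : ((M / g : ℕ) : ℤ) = (M : ℤ) / (g : ℤ) := by push_cast; rfl
      rw [Finset.mem_coe, Finset.mem_Icc]
      show -((M / g : ℕ) : ℤ) ≤ y / (g : ℤ) ∧ y / (g : ℤ) ≤ ((M / g : ℕ) : ℤ)
      rw [e1, e2]
      constructor
      · have : -c ≤ (M : ℤ) / (g : ℤ) := by
          apply Int.le_ediv_of_mul_le hg0
          have : -(M : ℤ) ≤ (g : ℤ) * c := by rw [← hc]; exact hy1.1
          nlinarith
        linarith
      · apply Int.le_ediv_of_mul_le hg0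
        have : (g : ℤ) * c ≤ (M : ℤ) := by rw [← hc]; exact hy1.2
        nlinarith
    · intro y hy y' hy' h
      obtain ⟨-, c, hc⟩ := Finset.mem_filter.1 (Finset.mem_coe.1 hy)
      obtain ⟨-, c', hc'⟩ := Finset.mem_filter.1 (Finset.mem_coe.1 hy')
      have h' : y / (g : ℤ) = y' / (g : ℤ) := h
      rw [hc, hc', Int.mul_ediv_cancel_left c (ne_of_gt hg0),
        Int.mul_ediv_cancel_left c' (ne_of_gt hg0)] at h'
      rw [hc, hc', h']
  have h2 : (Finset.Icc (-((M / g : ℕ) : ℤ)) ((M / g : ℕ) : ℤ)).card = 2 * (M / g) + 1 := by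
    rw [Int.card_Icc]; omega
  rw [h2] at h1
  have h3 : (((M / g : ℕ) : ℕ) : ℝ) ≤ (M : ℝ) / g := Nat.cast_div_le
  have hgR : (0 : ℝ) < (g : ℝ) := by exact_mod_cast hg
  have h4 : (1 : ℝ) ≤ (M : ℝ) / g := by
    rw [le_div_iff₀ hgR, one_mul]; exact_mod_cast hgM
  have h5 : (((Finset.Icc (-(M : ℤ)) (M : ℤ)).filter (fun y => (g : ℤ) ∣ y)).card : ℝ) ≤
      2 * ((M / g : ℕ) : ℝ) + 1 := by exact_mod_cast h1
  have h6 : 3 * (M : ℝ) / g = 3 * ((M : ℝ) / g) := by ring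
  rw [h6]
  linarith

/-- one horizontal line -/
theorem ups_line (b : ℕ) (C0 : ℝ)
    (h : ∀ (z X Q a : ℕ) (P : Finset ℕ) (Ω : (l : ℕ) → Finset (ZMod l)), 2 ≤ z → 1 ≤ Q →
      z ^ b * Q ≤ X →
      (∀ l ∈ P, l.Prime ∧ 7 ≤ l ∧ l ≤ z ∧ (Ω l).card ≤ 3 ∧ ¬ l ∣ Q) →
      ∀ S : Finset ℕ, (∀ k ∈ S, k ≤ X ∧ k % Q = a % Q ∧ ∀ l ∈ P, (k : ZMod l) ∉ Ω l) →
      (S.card : ℝ) ≤ C0 * ((X : ℝ) / Q) * Real.exp (-∑ l ∈ P, ((Ω l).card : ℝ) / l))
    (j : ℕ → ℤ) (N z Q : ℕ) (A : Finset ℕ) (r y : ℤ) (hz : 2 ≤ z) (hQ : 1 ≤ Q)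
    (hzQ : z ^ b * Q ≤ N) (hA : ∀ p ∈ A, p.Prime ∧ 7 ≤ p ∧ p ≤ z ∧ ¬ p ∣ Q)
    (V : Finset (ℤ × ℤ)) (hV : ∀ v ∈ V, v.2 = y ∧ -(N : ℤ) ≤ v.1 ∧ v.1 ≤ N ∧
      (Q : ℤ) ∣ v.1 - r * y ∧ Free j A v) :
    (V.card : ℝ) ≤ C0 * ((2 * N : ℝ) / Q) * sw A := by
  have hQ0 : (0 : ℤ) < (Q : ℤ) := by exact_mod_cast hQ
  have hcast : ∀ v ∈ V, (((v.1 + (N : ℤ)).toNat : ℕ) : ℤ) = v.1 + N := by
    intro v hv
    obtain ⟨-, h1, -⟩ := hV v hv
    rw [Int.toNat_of_nonneg (by linarith)]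
  have hcard : (V.image (fun v => (v.1 + (N : ℤ)).toNat)).card = V.card := by
    apply Finset.card_image_of_injOn
    intro v hv w hw hvw
    have hv' := Finset.mem_coe.1 hv
    have hw' := Finset.mem_coe.1 hw
    have e : (((v.1 + (N : ℤ)).toNat : ℕ) : ℤ) = (((w.1 + (N : ℤ)).toNat : ℕ) : ℤ) := by
      exact_mod_cast hvw
    rw [hcast v hv', hcast w hw'] at e
    have e1 : v.1 = w.1 := by linarith
    have e2 : v.2 = w.2 := by rw [(hV v hv').1, (hV w hw').1]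
    exact Prod.ext e1 e2
  have key := h z (2 * N) Q (((r * y + N) % (Q : ℤ)).toNat) A
    (fun l => {(((N : ℤ) - j l * y : ℤ) : ZMod l)}) hz hQ (by omega)
    (fun l hl => ⟨(hA l hl).1, (hA l hl).2.1, (hA l hl).2.2.1,
      by rw [Finset.card_singleton]; norm_num, (hA l hl).2.2.2⟩)
    (V.image (fun v => (v.1 + (N : ℤ)).toNat)) ?_
  · rw [hcard] at key
    have e1 : ∑ l ∈ A, ((({(((N : ℤ) - j l * y : ℤ) : ZMod l)} : Finset (ZMod l)).card : ℕ) : ℝ) / l =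
        ∑ l ∈ A, 1 / (l : ℝ) := by
      apply Finset.sum_congr rfl
      intro l _
      rw [Finset.card_singleton, Nat.cast_one]
    rw [e1] at key
    unfold sw
    push_cast at key
    exact key
  · intro k hk
    obtain ⟨v, hv, hvk⟩ := Finset.mem_image.1 hk
    obtain ⟨h1, h2, h3, h4, h5⟩ := hV v hv
    have hk' : (k : ℤ) = v.1 + N := by rw [← hvk]; exact hcast v hv
    refine ⟨by omega, ?_, ?_⟩
    · have ha : ((((r * y + N) % (Q : ℤ)).toNat : ℕ) : ℤ) = (r * y + N) % (Q : ℤ) :=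
        Int.toNat_of_nonneg (Int.emod_nonneg _ (ne_of_gt hQ0))
      have h6 : ((k % Q : ℕ) : ℤ) = (((((r * y + N) % (Q : ℤ)).toNat) % Q : ℕ) : ℤ) := by
        have h8 : (v.1 + (N : ℤ)) % (Q : ℤ) = (r * y + N) % (Q : ℤ) := by
          apply Int.emod_eq_emod_iff_emod_sub_eq_zero.2
          apply Int.emod_eq_zero_of_dvd
          have : v.1 + (N : ℤ) - (r * y + N) = v.1 - r * y := by ring
          rw [this]; exact h4
        rw [Int.natCast_mod, Int.natCast_mod, hk', ha, h8, Int.emod_emod_of_dvd _ (dvd_refl _)]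
      exact_mod_cast h6
    · intro l hl hmem
      rw [Finset.mem_singleton] at hmem
      have e1 : (((k : ℤ)) : ZMod l) = (((N : ℤ) - j l * y : ℤ) : ZMod l) := by
        rw [← hmem]; simp
      rw [hk', ZMod.intCast_eq_intCast_iff_dvd_sub] at e1
      apply h5 l hl
      unfold hit
      have e2 : v.1 + j l * v.2 = -((N : ℤ) - j l * y - (v.1 + N)) := by rw [h1]; ring
      rw [e2]
      exact (dvd_neg).2 e1

theorem st_UPS (h1 : ST_IDL) (h2 : Pool.Agent.Helper17.SO.ST_SAP) : ST_UPS := by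
  obtain ⟨b, C0, hb, hC0, hS⟩ := h2
  refine ⟨b, 6 * C0, hb, by linarith, ?_⟩
  intro j N M z e A hM hMN hz he hzN heM hA hpe
  obtain ⟨L, hL1, hL2, hL3⟩ := h1 e he hpe
  have heR : (0 : ℝ) < (e : ℝ) := by exact_mod_cast he
  have hsw : 0 < sw A := Real.exp_pos _
  -- the lines
  let Y : ℕ × ℤ → Finset ℤ := fun l =>
    (Finset.Icc (-(M : ℤ)) (M : ℤ)).filter (fun y => (l.1 : ℤ) ∣ y)
  let V : ℕ × ℤ → ℤ → Finset (ℤ × ℤ) := fun l y =>
    (sbox N M).filter (fun v => v.2 = y ∧ ((e / l.1 : ℕ) : ℤ) ∣ v.1 - l.2 * y ∧ Free j A v)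
  have hsub : (sbox N M).filter (fun v => e ∣ nm v ∧ Free j A v) ⊆
      L.biUnion (fun l => (Y l).biUnion (fun y => V l y)) := by
    intro v hv
    obtain ⟨hv1, hv2, hv3⟩ := Finset.mem_filter.1 hv
    obtain ⟨l, hl, hl1, hl2⟩ := hL3 v hv2
    rw [Finset.mem_biUnion]
    refine ⟨l, hl, ?_⟩
    rw [Finset.mem_biUnion]
    refine ⟨v.2, ?_, ?_⟩
    · rw [Finset.mem_filter]
      refine ⟨?_, hl1⟩
      unfold sbox at hv1
      exact (Finset.mem_product.1 hv1).2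
    · rw [Finset.mem_filter]
      exact ⟨hv1, rfl, hl2, hv3⟩
  have hcard : ((sbox N M).filter (fun v => e ∣ nm v ∧ Free j A v)).card ≤
      ∑ l ∈ L, ∑ y ∈ Y l, (V l y).card :=
    le_trans (Finset.card_le_card hsub) (le_trans Finset.card_biUnion_le
      (Finset.sum_le_sum fun l _ => Finset.card_biUnion_le))
  have hmain : ∀ l ∈ L, ∑ y ∈ Y l, ((V l y).card : ℝ) ≤ 6 * C0 * ((M : ℝ) * N / e) * sw A := by
    intro l hl
    obtain ⟨hg1, hg2⟩ := hL2 l hl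
    have hge : l.1 ∣ e := dvd_trans (dvd_pow_self l.1 (by norm_num)) hg2
    have hgM : l.1 ≤ M := by
      have h3 : l.1 ^ 2 ≤ M ^ 2 := le_trans (Nat.le_of_dvd he hg2) heM
      exact (Nat.pow_le_pow_iff_left (by norm_num)).1 h3
    have hQ : 1 ≤ e / l.1 := Nat.div_pos (Nat.le_of_dvd he hge) hg1
    have hQe : e / l.1 ∣ e := Nat.div_dvd_of_dvd hge
    have hgR : (0 : ℝ) < (l.1 : ℝ) := by exact_mod_cast hg1
    have hzQ : z ^ b * (e / l.1) ≤ N :=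
      le_trans (Nat.mul_le_mul_left _ (Nat.div_le_self _ _)) hzN
    have hline : ∀ y ∈ Y l, ((V l y).card : ℝ) ≤
        C0 * ((2 * N : ℝ) / ((e / l.1 : ℕ) : ℝ)) * sw A := by
      intro y _
      apply ups_line b C0 hS j N z (e / l.1) A l.2 y hz hQ hzQ
      · intro p hp
        obtain ⟨q1, q2, q3, q4⟩ := hA p hp
        exact ⟨q1, q2, q3, fun hd => q4 (dvd_trans hd hQe)⟩
      · intro v hv
        obtain ⟨hv1, hv2, hv3, hv4⟩ := Finset.mem_filter.1 hv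
        unfold sbox at hv1
        have hv5 := (Finset.mem_product.1 hv1).1
        rw [Finset.mem_Icc] at hv5
        exact ⟨hv2, hv5.1, hv5.2, hv3, hv4⟩
    have hQR : ((e / l.1 : ℕ) : ℝ) = (e : ℝ) / l.1 := Nat.cast_div hge (ne_of_gt hgR)
    have hB : 0 ≤ C0 * ((2 * N : ℝ) / ((e / l.1 : ℕ) : ℝ)) * sw A := by positivity
    calc ∑ y ∈ Y l, ((V l y).card : ℝ)
        ≤ ∑ _y ∈ Y l, C0 * ((2 * N : ℝ) / ((e / l.1 : ℕ) : ℝ)) * sw A :=
          Finset.sum_le_sum hline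
      _ = ((Y l).card : ℝ) * (C0 * ((2 * N : ℝ) / ((e / l.1 : ℕ) : ℝ)) * sw A) := by
          rw [Finset.sum_const, nsmul_eq_mul]
      _ ≤ (3 * M / l.1) * (C0 * ((2 * N : ℝ) / ((e / l.1 : ℕ) : ℝ)) * sw A) :=
          mul_le_mul_of_nonneg_right (ups_mult M l.1 hg1 hgM) hB
      _ = 6 * C0 * ((M : ℝ) * N / e) * sw A := by
          rw [hQR]
          field_simp
          ring
  have hfin : (((sbox N M).filter (fun v => e ∣ nm v ∧ Free j A v)).card : ℝ) ≤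
      ∑ l ∈ L, ∑ y ∈ Y l, ((V l y).card : ℝ) := by exact_mod_cast hcard
  have hD : 0 ≤ 6 * C0 * ((M : ℝ) * N / e) * sw A := by positivity
  calc (((sbox N M).filter (fun v => e ∣ nm v ∧ Free j A v)).card : ℝ)
      ≤ ∑ l ∈ L, ∑ y ∈ Y l, ((V l y).card : ℝ) := hfin
    _ ≤ ∑ _l ∈ L, 6 * C0 * ((M : ℝ) * N / e) * sw A := Finset.sum_le_sum hmain
    _ = (L.card : ℝ) * (6 * C0 * ((M : ℝ) * N / e) * sw A) := by
        rw [Finset.sum_const, nsmul_eq_mul]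
    _ ≤ (tau e : ℝ) * (6 * C0 * ((M : ℝ) * N / e) * sw A) :=
        mul_le_mul_of_nonneg_right (by exact_mod_cast hL1) hD
    _ = 6 * C0 * tau e * ((M : ℝ) * N / e) * sw A := by ring

end Pool.Agent.Helper37.DG
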